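import Pool.Agent.Helper12.MA.StC
import Pool.Agent.Helper12.MA.Lib

set_option autoImplicit false

namespace Pool.Agent.Helper96.MA

open Pool.Agent.Helper12.MA
open Pool.Agent.Helper51.AJ (IsMinor Planar Apex ExMinor Con Tch)
open Pool.Agent.Helper12.NK (rst Kc add cnt Pcy IsFace Cof plus)

private theorem le3 {V : Type} (a b c : V) : ({a, b, c} : Set V).ncard ≤ 3 := by
  have h1 := Set.ncard_insert_le a ({b, c} : Set V)
  have h2 := Set.ncard_insert_le b ({c} : Set V)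
  have h3 := Set.ncard_singleton c
  omega

private theorem ne4 {V : Type} {a b c d : V} (h : ({a, b, c, d} : Set V).ncard = 4) :
    a ≠ b ∧ a ≠ c ∧ a ≠ d ∧ b ≠ c ∧ b ≠ d ∧ c ≠ d := by
  refine ⟨?_, ?_, ?_, ?_, ?_, ?_⟩
  · rintro rfl
    have e : ({a, a, c, d} : Set V) = {a, c, d} := by ext x; simp
    have := le3 a c d
    rw [e] at h
    omega
  · rintro rfl
    have e : ({a, b, a, d} : Set V) = {a, b, d} := by
      ext x; simp only [Set.mem_insert_iff, Set.mem_singleton_iff]; tauto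
    have := le3 a b d
    rw [e] at h
    omega
  · rintro rfl
    have e : ({a, b, c, a} : Set V) = {a, b, c} := by
      ext x; simp only [Set.mem_insert_iff, Set.mem_singleton_iff]; tauto
    have := le3 a b c
    rw [e] at h
    omega
  · rintro rfl
    have e : ({a, b, b, d} : Set V) = {a, b, d} := by
      ext x; simp only [Set.mem_insert_iff, Set.mem_singleton_iff]; tauto
    have := le3 a b d
    rw [e] at h
    omega
  · rintro rfl
    have e : ({a, b, c, b} : Set V) = {a, b, c} := by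
      ext x; simp only [Set.mem_insert_iff, Set.mem_singleton_iff]; tauto
    have := le3 a b c
    rw [e] at h
    omega
  · rintro rfl
    have e : ({a, b, c, c} : Set V) = {a, b, c} := by
      ext x; simp only [Set.mem_insert_iff, Set.mem_singleton_iff]; tauto
    have := le3 a b c
    rw [e] at h
    omega

private theorem eq4 {V : Type} {a b c d : V} (h1 : a ≠ b) (h2 : a ≠ c) (h3 : a ≠ d) (h4 : b ≠ c)
    (h5 : b ≠ d) (h6 : c ≠ d) : ({a, b, c, d} : Set V).ncard = 4 := by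
  rw [Set.ncard_insert_of_notMem (by simp [h1, h2, h3]) (Set.toFinite _),
    Set.ncard_insert_of_notMem (by simp [h4, h5]) (Set.toFinite _),
    Set.ncard_insert_of_notMem (by simp [h6]) (Set.toFinite _), Set.ncard_singleton]

/-- The intersection of two left sides as the left side of a new cut. -/
private theorem mkCut {V : Type} {G : SimpleGraph V} {z v p q r r' : V} {f1 f3 : Set V}
    {σ b σ' b' s t : V} {X Y X' Y' : Set V} (h : Cut G z v p q r r' f1 f3 σ b X Y)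
    (h' : Cut G z v p q r r' f1 f3 σ' b' X' Y') (hs : s ∈ f1) (ht : t ∈ f3)
    (hc : ({v, z, s, t} : Set V).ncard = 4) (hQ : X ∩ X' ⊆ {v, z, s, t}ᶜ)
    (hq : q ≠ s ∧ q ≠ t) (hr : r ≠ s ∧ r ≠ t)
    (hn : ∀ n, n ≠ v → n ≠ z → n ≠ s → n ≠ t → n ∉ X ∩ X' → n ∈ Y ∨ n ∈ Y') :
    ∃ Y₁, Cut G z v p q r r' f1 f3 s t (X ∩ X') Y₁ := by
  have hqY : q ∉ X := fun hx => (Set.disjoint_left.mp h.sep.dis) hx h.sep.yR
  have hrY : r ∉ X := fun hx => (Set.disjoint_left.mp h.sep.dis) hx h.rY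
  have hsub : ∀ c, c ∈ Y → c ≠ v ∧ c ≠ z := by
    intro c hcY
    have h1 : c ∈ X ∪ Y := Or.inr hcY
    rw [h.sep.cov] at h1
    simp only [Set.mem_compl_iff, Set.mem_insert_iff, Set.mem_singleton_iff, not_or] at h1
    exact ⟨h1.1, h1.2.1⟩
  refine ⟨{v, z, s, t}ᶜ \ (X ∩ X'), ⟨⟨hc, ?_, ?_, ⟨h.sep.xL, h'.sep.xL⟩, ?_, h.sep.adj, ?_⟩, hs, ht,
    ⟨h.sX, h'.sX⟩, ?_⟩⟩
  · exact Set.union_sdiff_cancel hQ
  · exact Set.disjoint_sdiff_right
  · refine ⟨?_, fun hx => hqY hx.1⟩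
    obtain ⟨a1, a2⟩ := hsub q h.sep.yR
    simp only [Set.mem_compl_iff, Set.mem_insert_iff, Set.mem_singleton_iff, not_or]
    exact ⟨a1, a2, hq.1, hq.2⟩
  · rintro a ⟨ha, ha'⟩ n ⟨hn1, hn2⟩ hadj
    simp only [Set.mem_compl_iff, Set.mem_insert_iff, Set.mem_singleton_iff, not_or] at hn1
    rcases hn n hn1.1 hn1.2.1 hn1.2.2.1 hn1.2.2.2 hn2 with hy | hy
    · exact h.sep.only a ha n hy hadj
    · exact h'.sep.only a ha' n hy hadj
  · refine ⟨?_, fun hx => hrY hx.1⟩
    obtain ⟨a1, a2⟩ := hsub r h.rY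
    simp only [Set.mem_compl_iff, Set.mem_insert_iff, Set.mem_singleton_iff, not_or]
    exact ⟨a1, a2, hr.1, hr.2⟩

theorem hMIN (hU : StUNX) (hO : StORD) : StMIN := by
  intro V _ G z v p q r r' f1 f2 f3 f4 hC hex
  classical
  -- a cut with minimal left side
  have hex' : ∃ n, ∃ σ b X Y, Cut G z v p q r r' f1 f3 σ b X Y ∧ X.ncard = n := by
    obtain ⟨σ, b, X, Y, h⟩ := hex
    exact ⟨X.ncard, σ, b, X, Y, h, rfl⟩
  obtain ⟨σ, b, X, Y, h, hn⟩ := Nat.find_spec hex'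
  have hmin : ∀ σ' b' X' Y', Cut G z v p q r r' f1 f3 σ' b' X' Y' → X.ncard ≤ X'.ncard := by
    intro σ' b' X' Y' h'
    rw [hn]
    exact Nat.find_min' hex' ⟨σ', b', X', Y', h', rfl⟩
  refine ⟨σ, b, X, Y, h, ?_⟩
  intro σ' b' X' Y' h'
  by_contra hnot
  -- elements
  have dX : ∀ c, c ∈ X → c ∉ Y := fun _ hc => Set.disjoint_left.mp h.sep.dis hc
  have dX' : ∀ c, c ∈ X' → c ∉ Y' := fun _ hc => Set.disjoint_left.mp h'.sep.dis hc
  have out : ∀ c, c ∈ X ∪ Y → c ≠ v ∧ c ≠ z ∧ c ≠ σ ∧ c ≠ b := by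
    intro c h1
    rw [h.sep.cov] at h1
    simpa only [Set.mem_compl_iff, Set.mem_insert_iff, Set.mem_singleton_iff, not_or] using h1
  have out' : ∀ c, c ∈ X' ∪ Y' → c ≠ v ∧ c ≠ z ∧ c ≠ σ' ∧ c ≠ b' := by
    intro c h1
    rw [h'.sep.cov] at h1
    simpa only [Set.mem_compl_iff, Set.mem_insert_iff, Set.mem_singleton_iff, not_or] using h1
  have inn : ∀ c, c ≠ v → c ≠ z → c ≠ σ → c ≠ b → c ∈ X ∨ c ∈ Y := by
    intro c h1 h2 h3 h4
    have : c ∈ X ∪ Y := by
      rw [h.sep.cov]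
      simp only [Set.mem_compl_iff, Set.mem_insert_iff, Set.mem_singleton_iff, not_or]
      exact ⟨h1, h2, h3, h4⟩
    exact this
  have inn' : ∀ c, c ≠ v → c ≠ z → c ≠ σ' → c ≠ b' → c ∈ X' ∨ c ∈ Y' := by
    intro c h1 h2 h3 h4
    have : c ∈ X' ∪ Y' := by
      rw [h'.sep.cov]
      simp only [Set.mem_compl_iff, Set.mem_insert_iff, Set.mem_singleton_iff, not_or]
      exact ⟨h1, h2, h3, h4⟩
    exact this
  obtain ⟨vz, vs, vb, zs, zb, sb⟩ := ne4 h.sep.card
  obtain ⟨-, vs', vb', zs', zb', sb'⟩ := ne4 h'.sep.card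
  have qY := h.sep.yR
  have qY' := h'.sep.yR
  have rY := h.rY
  have rY' := h'.rY
  have sX : σ ∉ X := fun hx => (out σ (Or.inl hx)).2.2.1 rfl
  have bX : b ∉ X := fun hx => (out b (Or.inl hx)).2.2.2 rfl
  have sX' : σ' ∉ X' := fun hx => (out' σ' (Or.inl hx)).2.2.1 rfl
  have bX' : b' ∉ X' := fun hx => (out' b' (Or.inl hx)).2.2.2 rfl
  have lt_of : ∀ c Z, c ∈ X → c ∉ Z → Z ⊆ X → Z.ncard < X.ncard := by
    intro c Z hc hcZ hZ
    exact Set.ncard_lt_ncard ⟨hZ, fun hh => hcZ (hh hc)⟩ (Set.toFinite _)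
  by_cases hA : (X ∩ Y').Nonempty
  · obtain ⟨s1, s2, s3, s4⟩ := hU V G z v p q r r' f1 f2 f3 f4 hC σ b σ' b' X Y X' Y' h h' hA
    have hE : ¬ (X' ∩ Y).Nonempty := by
      intro hE
      obtain ⟨t1, -, -, -⟩ := hU V G z v p q r r' f1 f2 f3 f4 hC σ' b' σ b X' Y' X Y h' h hE
      exact dX _ s3 t1
    have hsub : X' ⊆ X := by
      intro c hc
      obtain ⟨c1, c2, -, -⟩ := out' c (Or.inl hc)
      rcases inn c c1 c2 (fun e => dX' c hc (e ▸ s1)) (fun e => dX' c hc (e ▸ s2)) with hh | hh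
      · exact hh
      · exact absurd ⟨c, hc, hh⟩ hE
    have h1 := lt_of σ' X' s3 sX' hsub
    have h2 := hmin σ' b' X' Y' h'
    omega
  · have hXY : ∀ c, c ∈ X → c ∉ Y' := fun c h1 h2 => hA ⟨c, h1, h2⟩
    have hOO := hO V G z v p q r r' f1 f2 f3 f4 hC σ' b' σ b X' Y' X Y h' h
    have hfin : ∀ s t c, c ∈ X → c ∉ X' → ¬ ∃ Y₁, Cut G z v p q r r' f1 f3 s t (X ∩ X') Y₁ := by
      rintro s t c h1 h2 ⟨Y₁, h3⟩
      have h4 := hmin _ _ _ _ h3
      have h5 := lt_of c (X ∩ X') h1 (fun hh => h2 hh.2) Set.inter_subset_left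
      omega
    by_cases c1 : σ' ∈ X
    · have hs : σ ∈ Y' := hOO.2.1 c1
      by_cases c2 : b' ∈ X
      · have hb : b ∈ Y' := hOO.1 c2
        refine hfin σ' b' σ' c1 sX' (mkCut h h' h'.sf h'.bf h'.sep.card ?_ ?_ ?_ ?_)
        · rintro c ⟨-, hc⟩
          have := out' c (Or.inl hc)
          simpa only [Set.mem_compl_iff, Set.mem_insert_iff, Set.mem_singleton_iff, not_or] using this
        · exact (out' q (Or.inr qY')).2.2
        · exact (out' r (Or.inr rY')).2.2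
        · intro n n1 n2 n3 n4 n5
          rcases inn' n n1 n2 n3 n4 with hh | hh
          · by_cases e1 : n = σ
            · exact Or.inr (e1 ▸ hs)
            by_cases e2 : n = b
            · exact Or.inr (e2 ▸ hb)
            rcases inn n n1 n2 e1 e2 with hk | hk
            · exact absurd ⟨hk, hh⟩ n5
            · exact Or.inl hk
          · exact Or.inr hh
      · refine hfin σ' b σ' c1 sX' (mkCut h h' h'.sf h.bf (eq4 vz vs' vb zs' zb ?_) ?_ ?_ ?_ ?_)
        · exact fun e => bX (e ▸ c1)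
        · rintro c ⟨hc, hc'⟩
          have h1 := out c (Or.inl hc)
          have h2 := out' c (Or.inl hc')
          simp only [Set.mem_compl_iff, Set.mem_insert_iff, Set.mem_singleton_iff, not_or]
          exact ⟨h1.1, h1.2.1, h2.2.2.1, h1.2.2.2⟩
        · exact ⟨(out' q (Or.inr qY')).2.2.1, (out q (Or.inr qY)).2.2.2⟩
        · exact ⟨(out' r (Or.inr rY')).2.2.1, (out r (Or.inr rY)).2.2.2⟩
        · intro n n1 n2 n3 n4 n5
          by_cases e1 : n = σ
          · exact Or.inr (e1 ▸ hs)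
          rcases inn n n1 n2 e1 n4 with hk | hk
          · rcases inn' n n1 n2 n3 (fun e => c2 (e ▸ hk)) with hh | hh
            · exact absurd ⟨hk, hh⟩ n5
            · exact Or.inr hh
          · exact Or.inl hk
    · have c2 : b' ∈ X := by
        by_contra c2
        apply hnot
        intro c hc
        have h1 := out c (Or.inl hc)
        rcases inn' c h1.1 h1.2.1 (fun e => c1 (e ▸ hc)) (fun e => c2 (e ▸ hc)) with hh | hh
        · exact hh
        · exact absurd hh (hXY c hc)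
      have hb : b ∈ Y' := hOO.1 c2
      refine hfin σ b' b' c2 bX' (mkCut h h' h.sf h'.bf (eq4 vz vs vb' zs zb' ?_) ?_ ?_ ?_ ?_)
      · exact fun e => sX (e ▸ c2)
      · rintro c ⟨hc, hc'⟩
        have h1 := out c (Or.inl hc)
        have h2 := out' c (Or.inl hc')
        simp only [Set.mem_compl_iff, Set.mem_insert_iff, Set.mem_singleton_iff, not_or]
        exact ⟨h1.1, h1.2.1, h1.2.2.1, h2.2.2.2⟩
      · exact ⟨(out q (Or.inr qY)).2.2.1, (out' q (Or.inr qY')).2.2.2⟩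
      · exact ⟨(out r (Or.inr rY)).2.2.1, (out' r (Or.inr rY')).2.2.2⟩
      · intro n n1 n2 n3 n4 n5
        by_cases e1 : n = b
        · exact Or.inr (e1 ▸ hb)
        rcases inn n n1 n2 n3 e1 with hk | hk
        · rcases inn' n n1 n2 (fun e => c1 (e ▸ hk)) n4 with hh | hh
          · exact absurd ⟨hk, hh⟩ n5
          · exact Or.inr hh
        · exact Or.inl hk

end Pool.Agent.Helper96.MA
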