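import Pool.Agent.Helper12.MA.StD
import Pool.Agent.Helper12.MA.Lib
import Pool.Agent.Helper41.AJ.M_CON

/-!
# Project MA (MP_d63854_co), module EXA

The exceptional situation when the server of `x x'` is none of `q₁, q₂, q₃`.
-/

set_option autoImplicit false

namespace Pool.Agent.Helper96.MA

open Pool.Agent.Helper12.MA
open Pool.Agent.Helper51.AJ (IsMinor Planar Apex ExMinor Con Tch con_union con_singleton con_nonempty)
open Pool.Agent.Helper12.NK (rst Kc add cnt Pcy IsFace Cof plus)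

private theorem le4 {V : Type} (a b c d : V) : ({a, b, c, d} : Set V).ncard ≤ 4 := by
  have h1 := Set.ncard_insert_le a ({b, c, d} : Set V)
  have h2 := Set.ncard_insert_le b ({c, d} : Set V)
  have h3 := Set.ncard_insert_le c ({d} : Set V)
  have h4 := Set.ncard_singleton d
  omega

private theorem le5 {V : Type} (a b c d e : V) : ({a, b, c, d, e} : Set V).ncard ≤ 5 := by
  have h1 := Set.ncard_insert_le a ({b, c, d, e} : Set V)
  have h2 := le4 b c d e
  omega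

private theorem le6 {V : Type} (a b c d e f : V) : ({a, b, c, d, e, f} : Set V).ncard ≤ 6 := by
  have h1 := Set.ncard_insert_le a ({b, c, d, e, f} : Set V)
  have h2 := le5 b c d e f
  omega

private theorem sub4 {V : Type} {S : Set V} {a b c d : V} (h : 5 ≤ S.ncard)
    (hs : S ⊆ {a, b, c, d}) : False := by
  have h1 := Set.ncard_le_ncard hs (Set.toFinite _)
  have h2 := le4 a b c d
  omega

/-- a set which does not touch `q` contains `y` -/
private theorem lemA {V : Type} [Finite V] {G : SimpleGraph V} {x x' y s q r r' : V}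
    (h6 : ∀ A : Set V, A.Nonempty → (Nb G A).ncard ≤ 4 → A ∪ Nb G A = Set.univ)
    (hx : ∀ c, G.Adj x c → c = y ∨ c = x' ∨ c = q ∨ c = r ∨ c = r')
    (D : Set V) (hD : D.Nonempty)
    (hW : ∀ d ∈ D, d ≠ s ∧ d ≠ x ∧ d ≠ x' ∧ d ≠ q ∧ d ≠ r ∧ d ≠ r')
    (hcl : ∀ d ∈ D, ∀ b, G.Adj d b → b = s ∨ b = x ∨ b = x' ∨ b = q ∨ b = r ∨ b = r' ∨ b ∈ D)
    (hn : ∀ d ∈ D, ¬ G.Adj d q) : y ∈ D := by
  have hsub : Nb G D ⊆ {s, x, x', r, r'} := by
    rintro b ⟨hb, a, ha, hab⟩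
    rcases hcl a ha b hab with h | h | h | h | h | h | h
    · simp [h]
    · simp [h]
    · simp [h]
    · exact absurd (h ▸ hab) (hn a ha)
    · simp [h]
    · simp [h]
    · exact absurd h hb
  have hqD : q ∉ D ∪ Nb G D := by
    rintro (h | ⟨_, a, ha, hab⟩)
    · exact (hW q h).2.2.2.1 rfl
    · exact hn a ha hab
  have h5 : 5 ≤ (Nb G D).ncard := by
    by_contra h
    have h7 := h6 D hD (by omega)
    rw [h7] at hqD
    exact hqD (Set.mem_univ _)
  have hxN : x ∈ Nb G D := by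
    by_contra hc
    refine sub4 (a := s) (b := x') (c := r) (d := r') h5 ?_
    intro b hb
    have := hsub hb
    simp only [Set.mem_insert_iff, Set.mem_singleton_iff] at this ⊢
    rcases this with h | h | h | h | h
    · exact Or.inl h
    · exact absurd (h ▸ hb) hc
    · exact Or.inr (Or.inl h)
    · exact Or.inr (Or.inr (Or.inl h))
    · exact Or.inr (Or.inr (Or.inr h))
  obtain ⟨_, d, hd, hdx⟩ := hxN
  have hw := hW d hd
  rcases hx d hdx.symm with h | h | h | h | h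
  · exact h ▸ hd
  · exact absurd h hw.2.2.1
  · exact absurd h hw.2.2.2.1
  · exact absurd h hw.2.2.2.2.1
  · exact absurd h hw.2.2.2.2.2

/-- the double server -/
private theorem lemB {V : Type} [Finite V] {G : SimpleGraph V} {x x' s q r r' : V}
    (h5 : ∀ x, 5 ≤ {a | G.Adj x a}.ncard) (hs : Srv G s x x') (hxx : G.Adj x x')
    (h1 : s ≠ r) (h2 : s ≠ r') (h3 : x ≠ r) (h4 : x ≠ r') (h6 : x' ≠ r) (h7 : x' ≠ r')
    (h8 : r ≠ r')
    (hn : ∀ w, w ≠ s → w ≠ x → w ≠ x' → w ≠ q → w ≠ r → w ≠ r' → ¬ G.Adj w q) :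
    DSc G q s x x' r r' := by
  have hsub : {a | G.Adj q a} ⊆ {s, x, x', r, r'} := by
    intro a ha
    by_contra hc
    simp only [Set.mem_insert_iff, Set.mem_singleton_iff, not_or] at hc
    exact hn a hc.1 hc.2.1 hc.2.2.1 (fun h => G.ne_of_adj ha h.symm) hc.2.2.2.1 hc.2.2.2.2 (SimpleGraph.Adj.symm ha)
  have heq : {a | G.Adj q a} = {s, x, x', r, r'} := by
    refine Set.eq_of_subset_of_ncard_le hsub ?_ (Set.toFinite _)
    exact le_trans (le5 _ _ _ _ _) (h5 q)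
  refine ⟨?_, ⟨hs.1, hs.2.1, h1, h2, G.ne_of_adj hxx, h3, h4, h6, h7, h8⟩, hxx, hs.2.2⟩
  intro a
  have : a ∈ {a | G.Adj q a} ↔ a ∈ ({s, x, x', r, r'} : Set V) := by rw [heq]
  simpa using this

/-- **Module EXA.** -/
theorem hEXA (hBAS : StBAS) : StEXA := by
  intro V _ G x x' y q₁ q₂ q₃ q₄ s hb he hs hs1 hs2 hs3
  obtain ⟨_, _, _, h5, _, h6, _⟩ := hBAS V G hb
  have hN : {a | G.Adj x a} = {y, x', q₁, q₂, q₃} := by
    ext c
    simpa using he.nx c
  have hx5 : 5 ≤ ({y, x', q₁, q₂, q₃} : Set V).ncard := hN ▸ h5 x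
  have n12 : q₁ ≠ q₂ := by
    rintro rfl
    exact sub4 (a := y) (b := x') (c := q₁) (d := q₃) hx5 (by intro z; simp)
  have n13 : q₁ ≠ q₃ := by
    rintro rfl
    exact sub4 (a := y) (b := x') (c := q₁) (d := q₂) hx5 (by intro z; simp; tauto)
  have n23 : q₂ ≠ q₃ := by
    rintro rfl
    exact sub4 (a := y) (b := x') (c := q₁) (d := q₂) hx5 (by intro z; simp)
  have axx : G.Adj x x' := (he.nx x').2 (by tauto)
  have a1 : G.Adj x q₁ := (he.nx q₁).2 (by tauto)
  have a2 : G.Adj x q₂ := (he.nx q₂).2 (by tauto)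
  have a3 : G.Adj x q₃ := (he.nx q₃).2 (by tauto)
  have b1 : G.Adj x' q₁ := (he.nx' q₁).2 (by tauto)
  have b2 : G.Adj x' q₂ := (he.nx' q₂).2 (by tauto)
  have b3 : G.Adj x' q₃ := (he.nx' q₃).2 (by tauto)
  have c1 := G.ne_of_adj a1
  have c2 := G.ne_of_adj a2
  have c3 := G.ne_of_adj a3
  have d1 := G.ne_of_adj b1
  have d2 := G.ne_of_adj b2
  have d3 := G.ne_of_adj b3
  have hxx := G.ne_of_adj axx
  obtain ⟨s1, s2, hpl⟩ := hs
  set W : Set V := {w | w ≠ s ∧ w ≠ x ∧ w ≠ x' ∧ w ≠ q₁ ∧ w ≠ q₂ ∧ w ≠ q₃} with hWdef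
  have hnot : ∀ b, b ∉ W → b = s ∨ b = x ∨ b = x' ∨ b = q₁ ∨ b = q₂ ∨ b = q₃ := by
    intro b hb
    by_contra hc
    simp only [not_or] at hc
    exact hb hc
  -- components
  have comp : ∀ w ∈ W, ∃ D : Set V, w ∈ D ∧ D ⊆ W ∧ Con G D ∧ ∀ a ∈ D, ∀ b ∈ W, G.Adj a b → b ∈ D := by
    intro w hw
    have hfin : {K : Set V | w ∈ K ∧ K ⊆ W ∧ Con G K}.Finite := Set.toFinite _
    obtain ⟨K, ⟨hxK, hKU, hKc⟩, hmax⟩ := Set.exists_max_image
      {K : Set V | w ∈ K ∧ K ⊆ W ∧ Con G K} Set.ncard hfin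
      ⟨{w}, rfl, Set.singleton_subset_iff.2 hw, con_singleton G w⟩
    refine ⟨K, hxK, hKU, hKc, ?_⟩
    intro a ha b hb hab
    by_contra hyK
    have hcon : Con G (K ∪ {b}) := con_union hKc (con_singleton G b) ⟨a, ha, b, rfl, hab⟩
    have h1 := hmax (K ∪ {b}) ⟨Or.inl hxK, Set.union_subset hKU (Set.singleton_subset_iff.2 hb),
      hcon⟩
    rw [Set.union_singleton, Set.ncard_insert_of_notMem hyK (Set.toFinite K)] at h1
    omega
  -- no component touches all three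
  have notall : ∀ D : Set V, D ⊆ W → Con G D →
      (∀ d ∈ D, ¬ G.Adj d q₁) ∨ (∀ d ∈ D, ¬ G.Adj d q₂) ∨ (∀ d ∈ D, ¬ G.Adj d q₃) := by
    intro D hDW hDc
    by_contra hc
    simp only [not_or, not_forall, not_not] at hc
    obtain ⟨⟨e1, he1, f1⟩, ⟨e2, he2, f2⟩, ⟨e3, he3, f3⟩⟩ := hc
    have hK5 := (nMNR V (rst (dl G x x') {s}ᶜ) hpl).2 ![{x}, {x'}, D] ![{q₁}, {q₂}, {q₃}]
    have hDc' : Con (rst (dl G x x') {s}ᶜ) D := by
      refine ((nKCA V G D).2.2.2.2.1 (rst (dl G x x') {s}ᶜ) D ?_).1 hDc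
      intro a ha b hb
      have ha' := hDW ha
      have hb' := hDW hb
      constructor
      · intro h
        exact ⟨⟨h, fun k => ha'.2.1 k.1, fun k => ha'.2.2.1 k.1⟩, ha'.1, hb'.1⟩
      · intro h
        exact h.1.1
    have tx : ∀ q : V, G.Adj x q → q ≠ x' → q ≠ s → Tch (rst (dl G x x') {s}ᶜ) {x} {q} := by
      intro q hq hq1 hq2
      exact ⟨x, rfl, q, rfl, ⟨hq, fun k => hq1 k.2, fun k => hxx k.1⟩, fun h => s1 h.symm, hq2⟩
    have tx' : ∀ q : V, G.Adj x' q → q ≠ x → q ≠ s → Tch (rst (dl G x x') {s}ᶜ) {x'} {q} := by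
      intro q hq hq1 hq2
      exact ⟨x', rfl, q, rfl, ⟨hq, fun k => hxx k.1.symm, fun k => hq1 k.2⟩, fun h => s2 h.symm, hq2⟩
    have tD : ∀ (e q : V), e ∈ D → G.Adj e q → q ≠ s → Tch (rst (dl G x x') {s}ᶜ) D {q} := by
      intro e q hE hq hq2
      have hw := hDW hE
      exact ⟨e, hE, q, rfl, ⟨hq, fun k => hw.2.1 k.1, fun k => hw.2.2.1 k.1⟩, hw.1, hq2⟩
    have hxD : x ∉ D := fun h => (hDW h).2.1 rfl
    have hx'D : x' ∉ D := fun h => (hDW h).2.2.1 rfl
    have hq1D : q₁ ∉ D := fun h => (hDW h).2.2.2.1 rfl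
    have hq2D : q₂ ∉ D := fun h => (hDW h).2.2.2.2.1 rfl
    have hq3D : q₃ ∉ D := fun h => (hDW h).2.2.2.2.2 rfl
    refine hK5 ?_ ?_ ?_ ?_ ?_ ?_
    · intro i
      fin_cases i
      · exact con_singleton _ x
      · exact con_singleton _ x'
      · exact hDc'
    · intro i
      fin_cases i
      · exact con_singleton _ _
      · exact con_singleton _ _
      · exact con_singleton _ _
    · intro i j hij
      fin_cases i <;> fin_cases j <;> first
        | exact absurd rfl hij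
        | (simp [Set.disjoint_singleton_left, Set.disjoint_singleton_right, hxx, hxx.symm, hxD, hx'D])
    · intro i j hij
      fin_cases i <;> fin_cases j <;> first
        | exact absurd rfl hij
        | (simp [Set.disjoint_singleton_left, Set.disjoint_singleton_right, n12, n13, n23,
            n12.symm, n13.symm, n23.symm])
    · intro i j
      fin_cases i <;> fin_cases j <;>
        simp [Set.disjoint_singleton_left, Set.disjoint_singleton_right, c1, c2, c3, d1, d2, d3,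
          hq1D, hq2D, hq3D]
    · intro i j
      fin_cases i <;> fin_cases j
      · exact tx q₁ a1 d1.symm hs1.symm
      · exact tx q₂ a2 d2.symm hs2.symm
      · exact tx q₃ a3 d3.symm hs3.symm
      · exact tx' q₁ b1 c1.symm hs1.symm
      · exact tx' q₂ b2 c2.symm hs2.symm
      · exact tx' q₃ b3 c3.symm hs3.symm
      · exact tD e1 q₁ he1 f1 hs1.symm
      · exact tD e2 q₂ he2 f2 hs2.symm
      · exact tD e3 q₃ he3 f3 hs3.symm
  -- every component contains `y`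
  have hyD : ∀ D : Set V, D.Nonempty → D ⊆ W → Con G D → (∀ a ∈ D, ∀ b ∈ W, G.Adj a b → b ∈ D) →
      y ∈ D := by
    intro D hne hDW hDc hcl
    have hcl' : ∀ d ∈ D, ∀ b, G.Adj d b →
        b = s ∨ b = x ∨ b = x' ∨ b = q₁ ∨ b = q₂ ∨ b = q₃ ∨ b ∈ D := by
      intro d hd b hdb
      by_cases hbW : b ∈ W
      · have := hcl d hd b hbW hdb
        tauto
      · have := hnot b hbW
        tauto
    rcases notall D hDW hDc with h | h | h
    · exact lemA h6 (fun c hc => (he.nx c).1 hc) D hne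
        (fun d hd => hDW hd) hcl' h
    · refine lemA (q := q₂) (r := q₁) (r' := q₃) (x := x) (x' := x') (s := s) h6
        (fun c hc => by have := (he.nx c).1 hc; tauto) D hne
        (fun d hd => by have := hDW hd; simp only [hWdef, Set.mem_ofPred_eq] at this; tauto)
        (fun d hd b hdb => by have := hcl' d hd b hdb; tauto) h
    · refine lemA (q := q₃) (r := q₁) (r' := q₂) (x := x) (x' := x') (s := s) h6
        (fun c hc => by have := (he.nx c).1 hc; tauto) D hne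
        (fun d hd => by have := hDW hd; simp only [hWdef, Set.mem_ofPred_eq] at this; tauto)
        (fun d hd b hdb => by have := hcl' d hd b hdb; tauto) h
  -- `W` is nonempty
  have hWne : ∃ w, w ∈ W := by
    by_contra hc
    simp only [not_exists] at hc
    have hsub : (Set.univ : Set V) ⊆ {s, x, x', q₁, q₂, q₃} := by
      intro b _
      simpa using hnot b (hc b)
    have h1 := Set.ncard_le_ncard hsub (Set.toFinite _)
    have h2 := le6 s x x' q₁ q₂ q₃
    rw [Set.ncard_univ] at h1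
    have := hb.n8
    omega
  obtain ⟨w₀, hw₀⟩ := hWne
  obtain ⟨D₀, hwD, hDW, hDc, hDcl⟩ := comp w₀ hw₀
  have hy₀ := hyD D₀ ⟨w₀, hwD⟩ hDW hDc hDcl
  have hall : ∀ w ∈ W, w ∈ D₀ := by
    intro w hw
    obtain ⟨D, hwD', hDW', hDc', hDcl'⟩ := comp w hw
    have hy := hyD D ⟨w, hwD'⟩ hDW' hDc' hDcl'
    by_contra hwn
    obtain ⟨a, ha, b, hb, hab⟩ := (Pool.Agent.Helper41.AJ.hCON V G _ hDc').1 (D ∩ D₀)
      Set.inter_subset_left ⟨y, hy, hy₀⟩ (fun h => hwn ((h.symm ▸ hwD' : w ∈ D ∩ D₀)).2)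
    exact hb.2 ⟨hb.1, hDcl a ha.2 b (hDW' hb.1) hab⟩
  rcases notall D₀ hDW hDc with h | h | h
  · exact ⟨q₁, s, x, x', q₂, q₃, lemB h5 ⟨s1, s2, hpl⟩ axx hs2 hs3 c2 c3 d2 d3 n23
      (fun w g1 g2 g3 g4 g5 g6 => h w (hall w ⟨g1, g2, g3, g4, g5, g6⟩))⟩
  · exact ⟨q₂, s, x, x', q₁, q₃, lemB h5 ⟨s1, s2, hpl⟩ axx hs1 hs3 c1 c3 d1 d3 n13
      (fun w g1 g2 g3 g4 g5 g6 => h w (hall w ⟨g1, g2, g3, g5, g4, g6⟩))⟩
  · exact ⟨q₃, s, x, x', q₁, q₂, lemB h5 ⟨s1, s2, hpl⟩ axx hs1 hs2 c1 c2 d1 d2 n12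
      (fun w g1 g2 g3 g4 g5 g6 => h w (hall w ⟨g1, g2, g3, g5, g6, g4⟩))⟩

end Pool.Agent.Helper96.MA
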